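import Pool.Agent.T9h20.TE.Spec

/-!
Piece (F) of helper20's TE: isolated zeros and sign changes on fine grids.
-/

set_option autoImplicit false

open MeasureTheory Set Filter Topology
open scoped ENNReal NNReal

namespace Pool.Agent.T9h65.TE

open Pool.Agent.T9h20.TE

theorem disc (P : ℕ → Prop) (l1 : ℕ) : ∀ l2, l1 ≤ l2 → ¬(P l1 ↔ P l2) →
    ∃ l, l1 ≤ l ∧ l < l2 ∧ ¬(P l ↔ P (l + 1)) := by
  intro l2 h
  induction l2, h using Nat.le_induction with
  | base => intro h; exact absurd Iff.rfl h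
  | succ m hm ih =>
    intro h
    by_cases h1 : P l1 ↔ P m
    · exact ⟨m, hm, Nat.lt_succ_self _, fun h2 => h (h1.trans h2)⟩
    · obtain ⟨l, ha, hb, hc⟩ := ih h1
      exact ⟨l, ha, hb.trans (Nat.lt_succ_self _), hc⟩

theorem stable (F : ℝ → ℝ) (hF : Continuous F) (w : ℝ) (hw : F w ≠ 0) :
    ∃ δ > 0, ∀ x, |x - w| < δ → (0 ≤ F x ↔ 0 ≤ F w) := by
  rcases lt_or_gt_of_ne hw with h | h
  · obtain ⟨δ, hδ, hb⟩ := Metric.eventually_nhds_iff.1
      (hF.continuousAt.eventually_lt continuousAt_const h)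
    refine ⟨δ, hδ, fun x hx => ?_⟩
    have h1 : F x < 0 := hb (by rwa [Real.dist_eq])
    exact ⟨fun h2 => absurd h2 (not_le.2 h1), fun h2 => absurd h2 (not_le.2 h)⟩
  · obtain ⟨δ, hδ, hb⟩ := Metric.eventually_nhds_iff.1
      (continuousAt_const.eventually_lt hF.continuousAt h)
    refine ⟨δ, hδ, fun x hx => ?_⟩
    have h1 : 0 < F x := hb (by rwa [Real.dist_eq])
    exact ⟨fun _ => h.le, fun _ => h1.le⟩

theorem cross (F : ℝ → ℝ) (hF : Continuous F) (p r u v : ℝ) (hpr : p < r) (hpu : p < u)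
    (huv : u < v) (hvr : v < r) (hu : F u ≠ 0) (hv : F v ≠ 0) (hc : ¬(0 ≤ F u ↔ 0 ≤ F v)) :
    ∀ᶠ n in (atTop : Filter ℕ), ∃ l, l < n ∧ u ≤ gp p r n l ∧ gp p r n l < v ∧
      ¬(0 ≤ F (gp p r n l) ↔ 0 ≤ F (gp p r n (l + 1))) := by
  obtain ⟨δ1, hδ1, hs1⟩ := stable F hF u hu
  obtain ⟨δ2, hδ2, hs2⟩ := stable F hF v hv
  have ht : Tendsto (fun n : ℕ => (r - p) / (n : ℝ)) atTop (𝓝 0) :=
    tendsto_const_div_atTop_nhds_zero_nat _
  have e1 := ht.eventually (gt_mem_nhds hδ1)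
  have e2 := ht.eventually (gt_mem_nhds hδ2)
  have e3 := ht.eventually (gt_mem_nhds (show (0 : ℝ) < (v - u) / 2 by linarith))
  filter_upwards [e1, e2, e3, eventually_ge_atTop 1] with n h1 h2 h3 h4
  have hn : (0 : ℝ) < n := by exact_mod_cast h4
  set h : ℝ := (r - p) / (n : ℝ) with hh
  have hh0 : 0 < h := div_pos (by linarith) hn
  have hgp : ∀ l : ℕ, gp p r n l = p + l * h := by
    intro l
    unfold gp
    rw [hh]
    ring
  have hnh : (n : ℝ) * h = r - p := by
    rw [hh]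
    field_simp
  set l1 : ℕ := ⌈(u - p) / h⌉₊ with hl1
  set l2 : ℕ := ⌊(v - p) / h⌋₊ with hl2
  have a1 : u ≤ p + l1 * h := by
    have := Nat.le_ceil ((u - p) / h)
    rw [div_le_iff₀ hh0] at this
    linarith
  have a2 : p + l1 * h < u + h := by
    have := Nat.ceil_lt_add_one (a := (u - p) / h) (div_nonneg (by linarith) hh0.le)
    rw [← hl1] at this
    have h5 : (l1 : ℝ) * h < ((u - p) / h + 1) * h := mul_lt_mul_of_pos_right this hh0
    have h6 : ((u - p) / h + 1) * h = u - p + h := by field_simp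
    linarith
  have a3 : p + l2 * h ≤ v := by
    have := Nat.floor_le (a := (v - p) / h) (div_nonneg (by linarith) hh0.le)
    rw [← hl2, le_div_iff₀ hh0] at this
    linarith
  have a4 : v < p + l2 * h + h := by
    have := Nat.lt_floor_add_one ((v - p) / h)
    rw [← hl2, div_lt_iff₀ hh0] at this
    linarith
  have hlt : l1 < l2 := by
    have : (l1 : ℝ) * h < l2 * h := by linarith
    have := lt_of_mul_lt_mul_right this hh0.le
    exact_mod_cast this
  have hl2n : l2 ≤ n := by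
    have : (l2 : ℝ) * h < n * h := by linarith
    have := lt_of_mul_lt_mul_right this hh0.le
    exact_mod_cast this.le
  have b1 : 0 ≤ F (gp p r n l1) ↔ 0 ≤ F u := hs1 _ (by
    rw [hgp, abs_of_nonneg (by linarith)]
    linarith)
  have b2 : 0 ≤ F (gp p r n l2) ↔ 0 ≤ F v := hs2 _ (by
    rw [hgp, abs_sub_comm, abs_of_nonneg (by linarith)]
    linarith)
  obtain ⟨l, c1, c2, c3⟩ := disc (fun l => 0 ≤ F (gp p r n l)) l1 l2 hlt.le (by
    intro h5
    exact hc (b1.symm.trans (h5.trans b2)))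
  refine ⟨l, lt_of_lt_of_le c2 hl2n, ?_, ?_, c3⟩
  · rw [hgp]
    have : (l1 : ℝ) * h ≤ l * h := mul_le_mul_of_nonneg_right (by exact_mod_cast c1) hh0.le
    linarith
  · rw [hgp]
    have : (l : ℝ) * h < l2 * h := mul_lt_mul_of_pos_right (by exact_mod_cast c2) hh0
    linarith

/-- One of the two shifted functions changes sign. -/
theorem crossZ (f : ℝ → ℝ) (hf : Continuous f) (p r u v ε : ℝ) (hpr : p < r) (hpu : p < u)
    (huv : u < v) (hvr : v < r) (hε : 0 < ε)
    (h : (f u = 0 ∧ ε < |f v|) ∨ (f v = 0 ∧ ε < |f u|)) :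
    ∀ᶠ n in (atTop : Filter ℕ), ∃ l, l < n ∧ u ≤ gp p r n l ∧ gp p r n l < v ∧
      (¬(0 ≤ f (gp p r n l) - ε ↔ 0 ≤ f (gp p r n (l + 1)) - ε) ∨
        ¬(0 ≤ f (gp p r n l) + ε ↔ 0 ≤ f (gp p r n (l + 1)) + ε)) := by
  have key : ((f u - ε ≠ 0 ∧ f v - ε ≠ 0) ∧ ¬(0 ≤ f u - ε ↔ 0 ≤ f v - ε)) ∨
      ((f u + ε ≠ 0 ∧ f v + ε ≠ 0) ∧ ¬(0 ≤ f u + ε ↔ 0 ≤ f v + ε)) := by
    rcases h with ⟨h1, h2⟩ | ⟨h1, h2⟩
    · rcases lt_abs.1 h2 with h3 | h3
      · refine Or.inl ⟨⟨by rw [h1]; linarith, by linarith [h3]⟩, fun h4 => ?_⟩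
        · have := h4.2 (by linarith)
          rw [h1] at this
          linarith
      · refine Or.inr ⟨⟨by rw [h1]; linarith, by linarith [h3]⟩, fun h4 => ?_⟩
        · have := h4.1 (by rw [h1]; linarith)
          linarith
    · rcases lt_abs.1 h2 with h3 | h3
      · refine Or.inl ⟨⟨by linarith [h3], by rw [h1]; linarith⟩, fun h4 => ?_⟩
        · have := h4.1 (by linarith)
          rw [h1] at this
          linarith
      · refine Or.inr ⟨⟨by linarith [h3], by rw [h1]; linarith⟩, fun h4 => ?_⟩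
        · have := h4.2 (by rw [h1]; linarith)
          linarith
  rcases key with ⟨⟨k1, k2⟩, k3⟩ | ⟨⟨k1, k2⟩, k3⟩
  · filter_upwards [cross (fun x => f x - ε) (hf.sub continuous_const) p r u v hpr hpu huv hvr
      k1 k2 k3] with n ⟨l, a, b, c, d⟩
    exact ⟨l, a, b, c, Or.inl d⟩
  · filter_upwards [cross (fun x => f x + ε) (hf.add continuous_const) p r u v hpr hpu huv hvr
      k1 k2 k3] with n ⟨l, a, b, c, d⟩
    exact ⟨l, a, b, c, Or.inr d⟩

theorem sPath : SPath := by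
  intro f p r hpr hf Z hZ hiso
  -- a common radius
  have hη : ∀ᶠ η in 𝓝[>] (0 : ℝ), ∀ z ∈ Z, (p < z - η ∧ z + η < r ∧ f (z - η) ≠ 0 ∧
      f (z + η) ≠ 0) ∧ ∀ z' ∈ Z, z < z' → z + η < z' - η := by
    rw [Filter.eventually_all_finset]
    intro z hz
    obtain ⟨⟨hz1, hz2⟩, hz3⟩ := hZ z hz
    have t1 : Tendsto (fun η : ℝ => z - η) (𝓝[>] 0) (𝓝[≠] z) := by
      refine tendsto_nhdsWithin_of_tendsto_nhds_of_eventually_within _ ?_ ?_
      · have : Tendsto (fun η : ℝ => z - η) (𝓝 0) (𝓝 (z - 0)) :=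
          (continuous_const.sub continuous_id).tendsto 0
        rw [sub_zero] at this
        exact this.mono_left nhdsWithin_le_nhds
      · filter_upwards [self_mem_nhdsWithin] with η hη
        have : (0 : ℝ) < η := hη
        simp only [mem_compl_iff, mem_singleton_iff]
        intro h
        linarith
    have t2 : Tendsto (fun η : ℝ => z + η) (𝓝[>] 0) (𝓝[≠] z) := by
      refine tendsto_nhdsWithin_of_tendsto_nhds_of_eventually_within _ ?_ ?_
      · have : Tendsto (fun η : ℝ => z + η) (𝓝 0) (𝓝 (z + 0)) :=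
          (continuous_const.add continuous_id).tendsto 0
        rw [add_zero] at this
        exact this.mono_left nhdsWithin_le_nhds
      · filter_upwards [self_mem_nhdsWithin] with η hη
        have : (0 : ℝ) < η := hη
        simp only [mem_compl_iff, mem_singleton_iff]
        intro h
        linarith
    have lt_ev : ∀ b : ℝ, 0 < b → ∀ᶠ η in 𝓝[>] (0 : ℝ), η < b := fun b hb =>
      (gt_mem_nhds hb).filter_mono nhdsWithin_le_nhds
    have u1 := t1.eventually (hiso z hz)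
    have u2 := t2.eventually (hiso z hz)
    have u3 := lt_ev (z - p) (by linarith)
    have u4 := lt_ev (r - z) (by linarith)
    have u5 : ∀ᶠ η in 𝓝[>] (0 : ℝ), ∀ z' ∈ Z, z < z' → z + η < z' - η := by
      rw [Filter.eventually_all_finset]
      intro z' _
      by_cases h : z < z'
      · filter_upwards [lt_ev ((z' - z) / 2) (by linarith)] with η hη _
        linarith
      · exact Filter.Eventually.of_forall fun η h' => absurd h' h
    filter_upwards [u1, u2, u3, u4, u5] with η v1 v2 v3 v4 v5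
    exact ⟨⟨by linarith, by linarith, v1, v2⟩, v5⟩
  obtain ⟨η, hη1, hη2⟩ := (hη.and self_mem_nhdsWithin).exists
  have hη0 : (0 : ℝ) < η := hη2
  have hε : ∀ᶠ ε in 𝓝[>] (0 : ℝ), 0 < ε ∧ ∀ z ∈ Z, ε < |f (z - η)| ∧ ε < |f (z + η)| := by
    refine Filter.Eventually.and self_mem_nhdsWithin ?_
    rw [Filter.eventually_all_finset]
    intro z hz
    obtain ⟨⟨-, -, h1, h2⟩, -⟩ := hη1 z hz
    exact Filter.Eventually.and
      ((gt_mem_nhds (abs_pos.2 h1)).filter_mono nhdsWithin_le_nhds)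
      ((gt_mem_nhds (abs_pos.2 h2)).filter_mono nhdsWithin_le_nhds)
  filter_upwards [hε] with ε ⟨hε0, hεZ⟩
  -- the intervals
  set lo : ℝ × Bool → ℝ := fun w => if w.2 then w.1 - η else w.1 with hlo
  set hi : ℝ × Bool → ℝ := fun w => if w.2 then w.1 else w.1 + η with hhi
  have hn : ∀ᶠ n in (atTop : Filter ℕ), ∀ w ∈ Z ×ˢ (Finset.univ : Finset Bool),
      ∃ l, l < n ∧ lo w ≤ gp p r n l ∧ gp p r n l < hi w ∧
      (¬(0 ≤ f (gp p r n l) - ε ↔ 0 ≤ f (gp p r n (l + 1)) - ε) ∨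
        ¬(0 ≤ f (gp p r n l) + ε ↔ 0 ≤ f (gp p r n (l + 1)) + ε)) := by
    rw [Filter.eventually_all_finset]
    rintro ⟨z, b⟩ hw
    have hz : z ∈ Z := (Finset.mem_product.1 hw).1
    obtain ⟨⟨hz1, hz2⟩, hz3⟩ := hZ z hz
    obtain ⟨⟨h1, h2, h3, h4⟩, -⟩ := hη1 z hz
    obtain ⟨h5, h6⟩ := hεZ z hz
    cases b with
    | true =>
      simpa [hlo, hhi] using crossZ f hf p r (z - η) z ε hpr h1 (by linarith) hz2 hε0
        (Or.inr ⟨hz3, h5⟩)
    | false =>
      simpa [hlo, hhi] using crossZ f hf p r z (z + η) ε hpr hz1 (by linarith) h2 hε0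
        (Or.inl ⟨hz3, h6⟩)
  filter_upwards [hn] with n hn
  choose! g hg using hn
  classical
  unfold chg
  refine le_trans ?_ (Finset.card_union_le _ _)
  have hcard : (Z ×ˢ (Finset.univ : Finset Bool)).card = 2 * Z.card := by
    rw [Finset.card_product]
    simp [mul_comm]
  rw [← hcard]
  refine Finset.card_le_card_of_injOn g ?_ ?_
  · intro w hw
    obtain ⟨h1, -, -, h4⟩ := hg w hw
    rw [Finset.mem_coe, Finset.mem_union, Finset.mem_filter, Finset.mem_filter]
    rcases h4 with h | h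
    · exact Or.inl ⟨Finset.mem_range.2 h1, h⟩
    · exact Or.inr ⟨Finset.mem_range.2 h1, h⟩
  · rintro ⟨z, b⟩ hw ⟨z', b'⟩ hw' heq
    obtain ⟨-, h2, h3, -⟩ := hg (z, b) hw
    obtain ⟨-, h2', h3', -⟩ := hg (z', b') hw'
    rw [heq] at h2 h3
    have hz : z ∈ Z := (Finset.mem_product.1 (Finset.mem_coe.1 hw)).1
    have hz' : z' ∈ Z := (Finset.mem_product.1 (Finset.mem_coe.1 hw')).1
    have bl : ∀ w : ℝ × Bool, w.1 - η ≤ lo w := by
      rintro ⟨x, c⟩
      cases c <;> simp [hlo, hη0.le]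
    have bh : ∀ w : ℝ × Bool, hi w ≤ w.1 + η := by
      rintro ⟨x, c⟩
      cases c <;> simp [hhi, hη0.le]
    have hzz : z = z' := by
      by_contra hne
      rcases lt_or_gt_of_ne hne with h | h
      · have := (hη1 z hz).2 z' hz' h
        have c1 := bh (z, b)
        have c2 := bl (z', b')
        simp only at c1 c2
        linarith
      · have := (hη1 z' hz').2 z hz h
        have c1 := bh (z', b')
        have c2 := bl (z, b)
        simp only at c1 c2
        linarith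
    subst hzz
    have hbb : b = b' := by
      cases b <;> cases b' <;> simp [hlo, hhi] at h2 h3 h2' h3' ⊢ <;> linarith
    rw [hbb]

end Pool.Agent.T9h65.TE
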