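import Pool.Agent.T9h20.TE.Spec2

/-!
Piece (V) of helper20's TE: the total variation of a quasi-concave function.
-/

set_option autoImplicit false

open MeasureTheory Set Filter Topology
open scoped ENNReal NNReal

namespace Pool.Agent.T9h65.TE

open Pool.Agent.T9h20.TE

theorem mono_sum (F : ℝ → ℝ) (hF : Monotone F) (h0 : ∀ y, 0 ≤ F y) (nx : ℝ → ℝ) (X : Finset ℝ) :
    (∀ x ∈ X, x < nx x) →
    (∀ x ∈ X, ∀ x' ∈ X, x ≠ x' → Disjoint (Ioo x (nx x)) (Ioo x' (nx x'))) →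
    ∀ b, (∀ x ∈ X, nx x ≤ b) → ∑ x ∈ X, (F (nx x) - F x) ≤ F b := by
  induction X using Finset.induction_on_max with
  | empty => intro _ _ b _; simpa using h0 b
  | insert m s hm ih =>
    intro h1 h2 b hb
    have hms : m ∉ s := fun h => lt_irrefl _ (hm m h)
    rw [Finset.sum_insert hms]
    have hle : ∀ x ∈ s, nx x ≤ m := by
      intro x hx
      by_contra hcon
      push Not at hcon
      have hd := h2 x (Finset.mem_insert_of_mem hx) m (Finset.mem_insert_self _ _) (hm x hx).ne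
      have hmn : m < nx m := h1 m (Finset.mem_insert_self _ _)
      obtain ⟨w, hw1, hw2⟩ := exists_between (lt_min hcon hmn)
      have q1 : w ∈ Ioo x (nx x) :=
        ⟨(hm x hx).trans hw1, lt_of_lt_of_le hw2 (min_le_left _ _)⟩
      have q2 : w ∈ Ioo m (nx m) := ⟨hw1, lt_of_lt_of_le hw2 (min_le_right _ _)⟩
      exact Set.disjoint_left.1 hd q1 q2
    have hs := ih (fun x hx => h1 x (Finset.mem_insert_of_mem hx))
      (fun x hx x' hx' => h2 x (Finset.mem_insert_of_mem hx) x' (Finset.mem_insert_of_mem hx'))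
      m hle
    have hb' := hF (hb m (Finset.mem_insert_self _ _))
    linarith

theorem sVar : SVar := by
  intro γ h0 h1 hq X nx hX hd
  set f : ℝ → ℝ := fun y => sSup (γ '' Iic y) with hf
  set g : ℝ → ℝ := fun y => sSup (γ '' Ici y) with hg
  have bdd : ∀ s : Set ℝ, BddAbove (γ '' s) := fun s => ⟨1, by rintro _ ⟨x, -, rfl⟩; exact h1 x⟩
  have hf1 : ∀ y, γ y ≤ f y := fun y => le_csSup (bdd _) ⟨y, self_mem_Iic, rfl⟩
  have hg1 : ∀ y, γ y ≤ g y := fun y => le_csSup (bdd _) ⟨y, self_mem_Ici, rfl⟩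
  have hf2 : ∀ y, f y ≤ 1 := fun y =>
    csSup_le ⟨_, ⟨y, self_mem_Iic, rfl⟩⟩ (by rintro _ ⟨x, -, rfl⟩; exact h1 x)
  have hg2 : ∀ y, g y ≤ 1 := fun y =>
    csSup_le ⟨_, ⟨y, self_mem_Ici, rfl⟩⟩ (by rintro _ ⟨x, -, rfl⟩; exact h1 x)
  have hfm : Monotone f := by
    intro x y hxy
    exact csSup_le_csSup (bdd _) ⟨_, ⟨x, self_mem_Iic, rfl⟩⟩ (image_mono (Iic_subset_Iic.2 hxy))
  have hgm : Antitone g := by
    intro x y hxy
    exact csSup_le_csSup (bdd _) ⟨_, ⟨y, self_mem_Ici, rfl⟩⟩ (image_mono (Ici_subset_Ici.2 hxy))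
  have hmin : ∀ y, γ y = min (f y) (g y) := by
    intro y
    refine le_antisymm (le_min (hf1 y) (hg1 y)) ?_
    by_contra hcon
    push Not at hcon
    have n1 : (γ '' Iic y).Nonempty := ⟨_, ⟨y, self_mem_Iic, rfl⟩⟩
    have n2 : (γ '' Ici y).Nonempty := ⟨_, ⟨y, self_mem_Ici, rfl⟩⟩
    have m1 : γ y < sSup (γ '' Iic y) := lt_of_lt_of_le hcon (min_le_left _ _)
    have m2 : γ y < sSup (γ '' Ici y) := lt_of_lt_of_le hcon (min_le_right _ _)
    obtain ⟨_, ⟨x, hx, rfl⟩, hx2⟩ := exists_lt_of_lt_csSup n1 m1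
    obtain ⟨_, ⟨z, hz, rfl⟩, hz2⟩ := exists_lt_of_lt_csSup n2 m2
    have := hq x y z hx hz
    exact absurd (lt_of_lt_of_le (lt_min hx2 hz2) this) (lt_irrefl _)
  obtain ⟨b, hb⟩ := Finset.exists_le (X.image nx)
  have hb' : ∀ x ∈ X, nx x ≤ b := fun x hx => hb _ (Finset.mem_image_of_mem _ hx)
  have s1 := mono_sum f hfm (fun y => (h0 y).trans (hf1 y)) nx X hX hd b hb'
  have s2 := mono_sum (fun y => 1 - g y) (fun x y hxy => by
      have := hgm hxy
      show 1 - g x ≤ 1 - g y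
      linarith) (fun y => by have := hg2 y; show 0 ≤ 1 - g y; linarith) nx X hX hd b hb'
  have s3 : ∑ x ∈ X, |γ (nx x) - γ x| ≤
      ∑ x ∈ X, ((f (nx x) - f x) + ((1 - g (nx x)) - (1 - g x))) := by
    refine Finset.sum_le_sum fun x hx => ?_
    rw [hmin (nx x), hmin x]
    refine (abs_min_sub_min_le_max _ _ _ _).trans ?_
    have c1 := hfm (hX x hx).le
    have c2 := hgm (hX x hx).le
    rw [abs_of_nonneg (by linarith : (0 : ℝ) ≤ f (nx x) - f x),
      abs_of_nonpos (by linarith : g (nx x) - g x ≤ 0)]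
    refine max_le ?_ ?_ <;> linarith
  rw [Finset.sum_add_distrib] at s3
  have c3 := hf2 b
  have c4 : 0 ≤ g b := (h0 b).trans (hg1 b)
  linarith

end Pool.Agent.T9h65.TE
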